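import Pool.Agent.R230.HZ.T
import Pool.Agent.R230.HZ.N
import Pool.Agent.R230.HZ.C

namespace Pool.Agent.Results.MP_a2ab48_an.DegenerateQuadratics

open Pool.Agent.R230.HZ

/-- Two homogeneous harmonic polynomials of degree two in five variables which lie in one connected
component of the set of polynomials with two-sided NTA nodal domains and whose zero sets are not
bi-Lipschitz equivalent. -/
theorem result : ∃ p q : MvPolynomial (Fin 5) ℝ,
    SameComponent 5 2 p q ∧ ¬ BiLipEquiv (zeroSet p) (zeroSet q) :=
  ⟨P 0, P 1, sameComp (pathInH ntaCone), notBiLip⟩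

end Pool.Agent.Results.MP_a2ab48_an.DegenerateQuadratics
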